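import Pool.Agent.Helper75.Slab.FlowGoals

/-! # Basic properties of flows of Lipschitz fields -/

open Set
open scoped NNReal

namespace Pool.Agent.Helper97.Slab.FL2

open Pool.Agent.Helper75.Flow

/-- Gronwall's inequality for two trajectories. -/
theorem gron {T K : ℝ} (hT : 0 ≤ T) (hK : 0 ≤ K) (v : ℝ → E → E)
    (hv : ∀ s ∈ Icc 0 T, ∀ x y, ‖v s x - v s y‖ ≤ K * ‖x - y‖) (f g : ℝ → E)
    (hf : ∀ s ∈ Icc 0 T, HasDerivWithinAt f (v s (f s)) (Icc 0 T) s)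
    (hg : ∀ s ∈ Icc 0 T, HasDerivWithinAt g (v s (g s)) (Icc 0 T) s) :
    ‖f T - g T‖ ≤ Real.exp (K * T) * ‖f 0 - g 0‖ := by
  have hL : ∀ s ∈ Ico 0 T, LipschitzOnWith (⟨K, hK⟩ : ℝ≥0) (v s) (univ : Set E) := by
    intro s hs
    refine LipschitzOnWith.of_dist_le_mul fun x _ y _ => ?_
    rw [dist_eq_norm, dist_eq_norm]
    exact hv s (Ico_subset_Icc_self hs) x y
  have hmono : ∀ (h : ℝ → E), (∀ s ∈ Icc 0 T, HasDerivWithinAt h (v s (h s)) (Icc 0 T) s) →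
      ContinuousOn h (Icc 0 T) ∧ ∀ s ∈ Ico 0 T, HasDerivWithinAt h (v s (h s)) (Ici s) s := by
    intro h hh
    refine ⟨fun s hs => (hh s hs).continuousWithinAt, fun s hs => ?_⟩
    refine (hh s (Ico_subset_Icc_self hs)).mono_of_mem_nhdsWithin ?_
    exact Icc_mem_nhdsGE_of_mem hs
  have h := dist_le_of_trajectories_ODE_of_mem (v := v) (s := fun _ => (univ : Set E)) (a := 0)
    (b := T) (δ := dist (f 0) (g 0)) hL (hmono f hf).1 (hmono f hf).2 (fun _ _ => mem_univ _)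
    (hmono g hg).1 (hmono g hg).2 (fun _ _ => mem_univ _) le_rfl T ⟨hT, le_rfl⟩
  rw [dist_eq_norm, dist_eq_norm, sub_zero, mul_comm] at h
  exact h

theorem sub_deriv {t s : ℝ} (hs : s ∈ Icc 0 t) {y : ℝ → E} {v : ℝ → E}
    (h : ∀ τ ∈ Icc 0 t, HasDerivWithinAt y (v τ) (Icc 0 t) τ) :
    ∀ τ ∈ Icc 0 s, HasDerivWithinAt y (v τ) (Icc 0 s) τ := fun τ hτ =>
  (h τ ⟨hτ.1, hτ.2.trans hs.2⟩).mono (Icc_subset_Icc_right hs.2)

theorem rev_deriv {t s : ℝ} (hs : s ∈ Icc 0 t) {y : ℝ → E} {v : ℝ → E}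
    (h : ∀ τ ∈ Icc 0 t, HasDerivWithinAt y (v τ) (Icc 0 t) τ) :
    ∀ τ ∈ Icc 0 s, HasDerivWithinAt (fun τ => y (s - τ)) (-(v (s - τ))) (Icc 0 s) τ := by
  intro τ hτ
  have hm : s - τ ∈ Icc 0 t := ⟨by linarith [hτ.2], by linarith [hτ.1, hs.2]⟩
  have h1 : HasDerivWithinAt (fun τ : ℝ => s - τ) (-1) (Icc 0 s) τ := by
    simpa using (hasDerivWithinAt_id τ (Icc 0 s)).const_sub s
  have h2 := HasDerivWithinAt.scomp τ (h (s - τ) hm) h1
    (fun x hx => ⟨by linarith [hx.2], by linarith [hx.1, hs.2]⟩)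
  have h3 : (-1 : ℝ) • v (s - τ) = -(v (s - τ)) := by rw [neg_smul, one_smul]
  rw [h3] at h2
  exact h2

theorem thm : G_FL2 := by
  intro t K u φ ht hu hφ
  obtain ⟨hK, hc, hl⟩ := hu
  obtain ⟨h0, hd⟩ := hφ
  have hA : ∀ s ∈ Icc 0 t, ∀ (y z : ℝ → E),
      (∀ s ∈ Icc 0 t, HasDerivWithinAt y (u s (y s)) (Icc 0 t) s) →
      (∀ s ∈ Icc 0 t, HasDerivWithinAt z (u s (z s)) (Icc 0 t) s) →
      ‖y s - z s‖ ≤ Real.exp (K * s) * ‖y 0 - z 0‖ := by
    intro s hs y z hy hz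
    exact gron hs.1 hK u (fun τ hτ => hl τ ⟨hτ.1, hτ.2.trans hs.2⟩) y z
      (sub_deriv hs hy) (sub_deriv hs hz)
  have hF : ∀ s ∈ Icc 0 t, ∀ X Y, ‖φ s X - φ s Y‖ ≤ Real.exp (K * s) * ‖X - Y‖ := by
    intro s hs X Y
    have h := hA s hs (fun τ => φ τ X) (fun τ => φ τ Y) (hd X) (hd Y)
    simp only [h0] at h
    exact h
  refine ⟨fun s hs X Y => ⟨hF s hs X Y, ?_⟩, ?_, ?_, ?_⟩
  · have h := gron hs.1 hK (fun τ y => -(u (s - τ) y))
      (fun τ hτ x y => by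
        have h1 := hl (s - τ) ⟨by linarith [hτ.2], by linarith [hτ.1, hs.2]⟩ x y
        rw [← norm_neg] at h1
        have h2 : -(u (s - τ) x) - -(u (s - τ) y) = -(u (s - τ) x - u (s - τ) y) := by abel
        rw [h2]
        exact h1)
      (fun τ => φ (s - τ) X) (fun τ => φ (s - τ) Y)
      (rev_deriv hs (hd X)) (rev_deriv hs (hd Y))
    simp only [sub_self, sub_zero, h0] at h
    exact h
  · refine continuousOn_prod_of_continuousOn_lipschitzOnWith'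
      (fun z : ℝ × E => φ z.1 z.2) (⟨Real.exp (K * t), (Real.exp_pos _).le⟩ : ℝ≥0) ?_ ?_
    · intro s hs
      refine LipschitzOnWith.of_dist_le_mul fun x _ y _ => ?_
      rw [dist_eq_norm, dist_eq_norm]
      refine (hF s hs x y).trans ?_
      refine mul_le_mul_of_nonneg_right ?_ (norm_nonneg _)
      exact Real.exp_le_exp.2 (mul_le_mul_of_nonneg_left hs.2 hK)
    · intro X _ s hs
      exact (hd X s hs).continuousWithinAt
  · intro y hy s hs
    have h := hA s hs y (fun τ => φ τ (y 0)) hy (hd (y 0))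
    simp only [h0, sub_self, norm_zero, mul_zero] at h
    exact sub_eq_zero.1 (norm_le_zero_iff.1 h)
  · intro C hC s hs X
    have h := norm_image_sub_le_of_norm_deriv_le_segment' (f := fun τ => φ τ X)
      (f' := fun τ => u τ (φ τ X)) (C := C) (a := 0) (b := t) (hd X)
      (fun τ hτ => hC τ (Ico_subset_Icc_self hτ) _) s hs
    simp only [h0, sub_zero] at h
    exact h

end Pool.Agent.Helper97.Slab.FL2
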